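import Pool.Agent.N303.LS.Stm5

set_option autoImplicit false

/-!
# Project LT (helper303): polynomial decomposition
-/

namespace Pool.Agent.N764.LS.PD

open Pool.Agent.N303.LS
open scoped SchwartzMap RealInnerProductSpace

variable {d : ℕ}

/-- finite sums of products of continuous functions of `x` and Schwartz functions of `v` -/
def Good (G : E d → E d → ℂ) : Prop :=
  ∃ (ι : Type) (_ : Fintype ι) (P : ι → E d → ℂ) (k : ι → 𝓢(E d, ℂ)),
    (∀ i, Continuous (P i)) ∧ ∀ x v : E d, G x v = ∑ i, P i x * k i v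

theorem good_add {G G' : E d → E d → ℂ} (h : Good G) (h' : Good G') :
    Good fun x v => G x v + G' x v := by
  obtain ⟨ι, _, P, k, hP, hk⟩ := h
  obtain ⟨ι', _, P', k', hP', hk'⟩ := h'
  refine ⟨ι ⊕ ι', inferInstance, Sum.elim P P', Sum.elim k k', ?_, ?_⟩
  · rintro (i | i)
    · exact hP i
    · exact hP' i
  · intro x v
    show G x v + G' x v = _
    rw [Fintype.sum_sum_type, hk, hk']
    rfl

theorem good_zero : Good (fun _ _ : E d => (0 : ℂ)) :=
  ⟨Empty, inferInstance, fun i => i.elim, fun i => i.elim, fun i => i.elim, fun x v => by simp⟩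

theorem good_sum {α : Type} (s : Finset α) (G : α → E d → E d → ℂ) (h : ∀ j, Good (G j)) :
    Good fun x v => ∑ j ∈ s, G j x v := by
  classical
  induction s using Finset.induction_on with
  | empty => simpa using good_zero
  | insert j s hj ih =>
    have := good_add (h j) ih
    simpa only [Finset.sum_insert hj] using this

theorem good_mulx {G : E d → E d → ℂ} (h : Good G) {p : E d → ℂ} (hp : Continuous p) :
    Good fun x v => p x * G x v := by
  obtain ⟨ι, _, P, k, hP, hk⟩ := h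
  refine ⟨ι, inferInstance, fun i x => p x * P i x, k, fun i => hp.mul (hP i), ?_⟩
  intro x v
  show p x * G x v = _
  rw [hk, Finset.mul_sum]
  exact Finset.sum_congr rfl fun i _ => by ring

theorem good_mulv {G : E d → E d → ℂ} (h : Good G) {g : E d → ℂ} (hg : g.HasTemperateGrowth) :
    Good fun x v => g v * G x v := by
  obtain ⟨ι, _, P, k, hP, hk⟩ := h
  refine ⟨ι, inferInstance, P, fun i => SchwartzMap.smulLeftCLM ℂ g (k i), hP, ?_⟩
  intro x v
  show g v * G x v = _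
  rw [hk, Finset.mul_sum]
  refine Finset.sum_congr rfl fun i _ => ?_
  rw [SchwartzMap.smulLeftCLM_apply_apply hg, smul_eq_mul]
  ring

theorem temp_coord (j : Fin d) : (fun v : E d => ((v j : ℝ) : ℂ)).HasTemperateGrowth :=
  Function.Complex.hasTemperateGrowth_ofReal.comp
    (EuclideanSpace.proj (𝕜 := ℝ) j : E d →L[ℝ] ℝ).hasTemperateGrowth

theorem temp_norm : (fun v : E d => ((‖v‖ ^ 2 : ℝ) : ℂ)).HasTemperateGrowth :=
  Function.Complex.hasTemperateGrowth_ofReal.comp (Function.hasTemperateGrowth_norm_sq (E d))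

theorem expand (x v : E d) : (((1 + ‖x - v‖ ^ 2 : ℝ)) : ℂ) =
    ((1 + ‖x‖ ^ 2 : ℝ) : ℂ) + (∑ j, (-2 * ((x j : ℝ) : ℂ)) * ((v j : ℝ) : ℂ)) +
      ((‖v‖ ^ 2 : ℝ) : ℂ) := by
  have h : ⟪x, v⟫ = ∑ j, x j * v j := by
    rw [PiLp.inner_apply]
    refine Finset.sum_congr rfl fun j _ => ?_
    simp [mul_comm]
  rw [norm_sub_sq_real, h]
  push_cast
  rw [Finset.mul_sum]
  have : ∑ j, (-2 * ((x j : ℝ) : ℂ)) * ((v j : ℝ) : ℂ) =
      -∑ j, 2 * (((x j : ℝ) : ℂ) * ((v j : ℝ) : ℂ)) := by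
    rw [← Finset.sum_neg_distrib]
    exact Finset.sum_congr rfl fun j _ => by ring
  rw [this]
  ring

theorem good_main (K : 𝓢(E d, ℂ)) (B : ℕ) :
    Good fun x v : E d => K v * (((1 + ‖x - v‖ ^ 2) ^ B : ℝ) : ℂ) := by
  induction B with
  | zero =>
    refine ⟨Unit, inferInstance, fun _ _ => 1, fun _ => K, fun _ => continuous_const, ?_⟩
    intro x v
    simp
  | succ B ih =>
    have h1 : Good fun x v : E d => ((1 + ‖x‖ ^ 2 : ℝ) : ℂ) *
        (K v * (((1 + ‖x - v‖ ^ 2) ^ B : ℝ) : ℂ)) :=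
      good_mulx ih (by fun_prop)
    have h2 : Good fun x v : E d => ((‖v‖ ^ 2 : ℝ) : ℂ) *
        (K v * (((1 + ‖x - v‖ ^ 2) ^ B : ℝ) : ℂ)) :=
      good_mulv ih temp_norm
    have h3 : Good fun x v : E d => ∑ j, (-2 * ((x j : ℝ) : ℂ)) * (((v j : ℝ) : ℂ) *
        (K v * (((1 + ‖x - v‖ ^ 2) ^ B : ℝ) : ℂ))) :=
      good_sum Finset.univ _ fun j => good_mulx (good_mulv ih (temp_coord j)) (by fun_prop)
    have h4 := good_add (good_add h1 h3) h2
    obtain ⟨ι, hι, P, k, hP, hk⟩ := h4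
    refine ⟨ι, hι, P, k, hP, ?_⟩
    intro x v
    rw [← hk x v]
    have e : (((1 + ‖x - v‖ ^ 2) ^ (B + 1) : ℝ) : ℂ) =
        (((1 + ‖x - v‖ ^ 2) ^ B : ℝ) : ℂ) * (((1 + ‖x - v‖ ^ 2 : ℝ)) : ℂ) := by
      push_cast; ring
    have e2 : ∑ j, (-2 * ((x j : ℝ) : ℂ)) * (((v j : ℝ) : ℂ) *
        (K v * (((1 + ‖x - v‖ ^ 2) ^ B : ℝ) : ℂ))) =
        (∑ j, (-2 * ((x j : ℝ) : ℂ)) * ((v j : ℝ) : ℂ)) *
          (K v * (((1 + ‖x - v‖ ^ 2) ^ B : ℝ) : ℂ)) := by
      rw [Finset.sum_mul]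
      exact Finset.sum_congr rfl fun j _ => by ring
    beta_reduce
    rw [e, expand x v, e2]
    ring

theorem t_pd : S_PD := by
  intro d B K
  obtain ⟨ι, _, P, k, hP, hk⟩ := good_main K B
  let e := Fintype.equivFin ι
  refine ⟨Fintype.card ι, fun i => P (e.symm i), fun i => k (e.symm i), fun i => hP _, ?_⟩
  intro x v
  have h := hk x v
  beta_reduce at h
  rw [h]
  exact (Equiv.sum_comp e.symm fun i => P i x * k i v).symm

end Pool.Agent.N764.LS.PD
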